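import Mathlib
import Pool.Agent.Helper98.Lang.Defs

set_option autoImplicit false

open Finset

namespace Pool.Agent.Helper26.Lang

open Pool.Agent.Helper98.Lang

theorem pr_succ_not (a b : ℕ) (h : ¬ (b + 1).Prime) : pr a (b + 1) = pr a b := by
  ext p
  simp only [pr, mem_filter, mem_Ioc]
  constructor
  · rintro ⟨⟨h1, h2⟩, h3⟩
    have : p ≠ b + 1 := fun e => h (e ▸ h3)
    exact ⟨⟨h1, by omega⟩, h3⟩
  · rintro ⟨⟨h1, h2⟩, h3⟩
    exact ⟨⟨h1, by omega⟩, h3⟩

theorem pr_succ (a b : ℕ) (hab : a ≤ b) (h : (b + 1).Prime) :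
    pr a (b + 1) = insert (b + 1) (pr a b) := by
  ext p
  simp only [pr, mem_filter, mem_Ioc, mem_insert]
  constructor
  · rintro ⟨⟨h1, h2⟩, h3⟩
    by_cases e : p = b + 1
    · left; exact e
    · right; exact ⟨⟨h1, by omega⟩, h3⟩
  · rintro (e | ⟨⟨h1, h2⟩, h3⟩)
    · subst e
      exact ⟨⟨by omega, le_rfl⟩, h⟩
    · exact ⟨⟨h1, by omega⟩, h3⟩

theorem not_mem_pr (a b : ℕ) : b + 1 ∉ pr a b := by
  simp only [pr, mem_filter, mem_Ioc, not_and]
  intro h
  omega

theorem PP_ne_zero (y : ℕ) : PP y ≠ 0 := by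
  unfold PP
  rw [Finset.prod_ne_zero_iff]
  intro p hp
  simp only [pr, mem_filter] at hp
  exact hp.2.ne_zero

theorem PP_succ (b : ℕ) (h : (b + 1).Prime) : PP (b + 1) = PP b * (b + 1) := by
  unfold PP
  rw [pr_succ 0 b (Nat.zero_le b) h, Finset.prod_insert (not_mem_pr 0 b), mul_comm]

theorem not_dvd_PP (b : ℕ) (h : (b + 1).Prime) : ¬ (b + 1) ∣ PP b := by
  unfold PP
  intro hd
  obtain ⟨p, hp, hdp⟩ := (Prime.dvd_finsetProd_iff (Nat.prime_iff.mp h) (fun p : ℕ => p)).mp hd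
  simp only [pr, mem_filter, mem_Ioc] at hp
  have := (Nat.prime_dvd_prime_iff_eq h hp.2).mp hdp
  omega

theorem V_pos (y : ℕ) : 0 < V y := by
  unfold V
  apply Finset.prod_pos
  intro p _
  positivity

theorem V_succ (b : ℕ) (h : (b + 1).Prime) :
    V (b + 1) = V b * (1 + 1 / (((b + 1 : ℕ) : ℝ))) := by
  unfold V
  rw [pr_succ 0 b (Nat.zero_le b) h, Finset.prod_insert (not_mem_pr 0 b), mul_comm]

theorem divisors_mul_prime (m p : ℕ) (hm : m ≠ 0) (hp : p.Prime) :
    (m * p).divisors = m.divisors ∪ m.divisors.image (fun d => d * p) := by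
  ext d
  simp only [Nat.mem_divisors, mem_union, mem_image]
  constructor
  · rintro ⟨h1, h2⟩
    by_cases hpd : p ∣ d
    · right
      obtain ⟨e, rfl⟩ := hpd
      refine ⟨e, ⟨?_, hm⟩, mul_comm _ _⟩
      rw [mul_comm p e] at h1
      exact Nat.dvd_of_mul_dvd_mul_right hp.pos h1
    · left
      refine ⟨?_, hm⟩
      have hc : Nat.Coprime d p := ((Nat.Prime.coprime_iff_not_dvd hp).mpr hpd).symm
      exact hc.dvd_of_dvd_mul_right h1
  · rintro (⟨h1, _⟩ | ⟨e, ⟨h1, _⟩, rfl⟩)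
    · exact ⟨h1.mul_right p, mul_ne_zero hm hp.ne_zero⟩
    · exact ⟨Nat.mul_dvd_mul_right h1 p, mul_ne_zero hm hp.ne_zero⟩

theorem sum_divisors_mul_prime (m p : ℕ) (hm : m ≠ 0) (hp : p.Prime) (hpm : ¬ p ∣ m)
    (f : ℕ → ℝ) :
    ∑ n ∈ (m * p).divisors, f n = ∑ n ∈ m.divisors, f n + ∑ n ∈ m.divisors, f (n * p) := by
  rw [divisors_mul_prime m p hm hp, Finset.sum_union, Finset.sum_image]
  · intro x _ y _ hxy
    exact Nat.eq_of_mul_eq_mul_right hp.pos hxy
  · rw [Finset.disjoint_left]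
    intro d hd hd'
    obtain ⟨e, _, rfl⟩ := Finset.mem_image.mp hd'
    exact hpm ((Dvd.intro_left e rfl).trans (Nat.dvd_of_mem_divisors hd))

theorem CR_nonneg (hC : GCross) (q a b n : ℕ) (hq : 2 ≤ q) (hn : n ≠ 0) : 0 ≤ CR q a b n := by
  unfold CR
  apply Finset.sum_nonneg
  intro p hp
  simp only [pr, mem_filter] at hp
  have h1 := (hC q n hq hn).1 p hp.1.2 hp.2
  have h2 : (0 : ℝ) ≤ (NQ q (n * p) : ℝ) - 2 * NQ q n := by
    have : ((2 * NQ q n : ℕ) : ℝ) ≤ (NQ q (n * p) : ℝ) := by exact_mod_cast h1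
    push_cast at this
    linarith
  positivity

theorem F_nonneg (q y : ℕ) : 0 ≤ F q y := by
  unfold F
  apply Finset.sum_nonneg
  intro n _
  positivity

/-- the step over a prime -/
theorem step (hC : GCross) (q a b : ℕ) (hq : 2 ≤ q) (hab : a ≤ b) (hp : (b + 1).Prime)
    (hV : V a ≤ V b)
    (ih : F q b ≤ (V b / V a) ^ (1 + 1 / (q : ℝ)) *
      (F q a + ∑ n ∈ (PP b).divisors, CR q a b n / n)) :
    F q (b + 1) ≤ (V (b + 1) / V a) ^ (1 + 1 / (q : ℝ)) *
      (F q a + ∑ n ∈ (PP (b + 1)).divisors, CR q a (b + 1) n / n) := by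
  set p : ℕ := b + 1 with hpdef
  have hm := PP_ne_zero b
  have hpm := not_dvd_PP b hp
  have hp0 : (0 : ℝ) < (p : ℝ) := by exact_mod_cast hp.pos
  have hq0 : (0 : ℝ) < (q : ℝ) := by
    have : 0 < q := by omega
    exact_mod_cast this
  have hq1 : 1 / (q : ℝ) ≤ 1 := by
    rw [div_le_one hq0]
    have : 1 ≤ q := by omega
    exact_mod_cast this
  have hqn : 0 ≤ 1 / (q : ℝ) := by positivity
  set X : ℕ → ℝ := fun n => (NQ q (n * p) : ℝ) - 2 * NQ q n with hX
  have hX0 : ∀ n ∈ (PP b).divisors, 0 ≤ X n := by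
    intro n hn
    have hn0 : n ≠ 0 := by
      rintro rfl
      simp at hn
    have hpn : ¬ p ∣ n := fun h => hpm (h.trans (Nat.dvd_of_mem_divisors hn))
    have h1 := (hC q n hq hn0).1 p hp hpn
    have : ((2 * NQ q n : ℕ) : ℝ) ≤ (NQ q (n * p) : ℝ) := by exact_mod_cast h1
    push_cast at this
    simp only [hX]
    linarith
  set T : ℝ := ∑ n ∈ (PP b).divisors, (X n) ^ (1 / (q : ℝ)) / p / n with hT
  have hT0 : 0 ≤ T := by
    apply Finset.sum_nonneg
    intro n hn
    have := hX0 n hn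
    positivity
  -- the sum over the divisors of `PP p`
  have hF : F q p = F q b + ∑ n ∈ (PP b).divisors, (NQ q (n * p) : ℝ) ^ (1 / (q : ℝ)) / (n * p) := by
    unfold F
    rw [hpdef, PP_succ b hp, sum_divisors_mul_prime (PP b) (b + 1) hm hp hpm]
    congr 1
    apply Finset.sum_congr rfl
    intro n _
    push_cast
    ring
  have hterm : ∑ n ∈ (PP b).divisors, (NQ q (n * p) : ℝ) ^ (1 / (q : ℝ)) / (n * p)
      ≤ (1 + 1 / (q : ℝ)) / p * F q b + T := by
    unfold F
    rw [Finset.mul_sum, hT, ← Finset.sum_add_distrib]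
    apply Finset.sum_le_sum
    intro n hn
    have hn0 : n ≠ 0 := by
      rintro rfl
      simp at hn
    have hn1 : (0 : ℝ) < n := by exact_mod_cast Nat.pos_of_ne_zero hn0
    have hx := hX0 n hn
    have h1 : (NQ q (n * p) : ℝ) = 2 * NQ q n + X n := by
      simp only [hX]; ring
    have h2 : (2 * (NQ q n : ℝ) + X n) ^ (1 / (q : ℝ)) ≤
        (2 * (NQ q n : ℝ)) ^ (1 / (q : ℝ)) + X n ^ (1 / (q : ℝ)) :=
      Real.rpow_add_le_add_rpow (by positivity) hx hqn hq1
    have h3 : (2 * (NQ q n : ℝ)) ^ (1 / (q : ℝ)) = 2 ^ (1 / (q : ℝ)) * (NQ q n : ℝ) ^ (1 / (q : ℝ)) :=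
      Real.mul_rpow (by norm_num) (by positivity)
    have h4 : (2 : ℝ) ^ (1 / (q : ℝ)) ≤ 1 + 1 / (q : ℝ) := by
      have := rpow_one_add_le_one_add_mul_self (s := 1) (by norm_num) hqn hq1
      have e : (1 : ℝ) + 1 = 2 := by norm_num
      rw [e, mul_one] at this
      exact this
    have h5 : (NQ q (n * p) : ℝ) ^ (1 / (q : ℝ)) ≤
        (1 + 1 / (q : ℝ)) * (NQ q n : ℝ) ^ (1 / (q : ℝ)) + X n ^ (1 / (q : ℝ)) := by
      rw [h1]
      refine h2.trans ?_
      rw [h3]
      have : 2 ^ (1 / (q : ℝ)) * (NQ q n : ℝ) ^ (1 / (q : ℝ)) ≤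
          (1 + 1 / (q : ℝ)) * (NQ q n : ℝ) ^ (1 / (q : ℝ)) :=
        mul_le_mul_of_nonneg_right h4 (by positivity)
      linarith
    have h6 : (NQ q (n * p) : ℝ) ^ (1 / (q : ℝ)) / (n * p) ≤
        ((1 + 1 / (q : ℝ)) * (NQ q n : ℝ) ^ (1 / (q : ℝ)) + X n ^ (1 / (q : ℝ))) / (n * p) :=
      div_le_div_of_nonneg_right h5 (by positivity)
    refine h6.trans (le_of_eq ?_)
    field_simp
  -- the right side
  have hR1 : 1 ≤ (V p / V a) ^ (1 + 1 / (q : ℝ)) := by
    apply Real.one_le_rpow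
    · rw [one_le_div (V_pos a), hpdef, V_succ b hp]
      have : V b * 1 ≤ V b * (1 + 1 / (((b + 1 : ℕ) : ℝ))) := by
        apply mul_le_mul_of_nonneg_left _ (V_pos b).le
        have : (0 : ℝ) ≤ 1 / (((b + 1 : ℕ) : ℝ)) := by positivity
        linarith
      linarith
    · positivity
  have hR2 : (V p / V a) ^ (1 + 1 / (q : ℝ)) =
      (V b / V a) ^ (1 + 1 / (q : ℝ)) * (1 + 1 / (p : ℝ)) ^ (1 + 1 / (q : ℝ)) := by
    rw [← Real.mul_rpow (div_nonneg (V_pos b).le (V_pos a).le) (by positivity)]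
    congr 1
    rw [hpdef, V_succ b hp]
    ring
  have hBern : 1 + (1 + 1 / (q : ℝ)) / p ≤ (1 + 1 / (p : ℝ)) ^ (1 + 1 / (q : ℝ)) := by
    have hs : (-1 : ℝ) ≤ 1 / (p : ℝ) := by
      have : (0 : ℝ) ≤ 1 / (p : ℝ) := by positivity
      linarith
    have := one_add_mul_self_le_rpow_one_add hs (by linarith : (1 : ℝ) ≤ 1 + 1 / (q : ℝ))
    have e : (1 + 1 / (q : ℝ)) * (1 / (p : ℝ)) = (1 + 1 / (q : ℝ)) / p := by ring
    rw [e] at this
    exact this
  set S : ℝ := F q a + ∑ n ∈ (PP b).divisors, CR q a b n / n with hS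
  have hS0 : 0 ≤ S := by
    apply add_nonneg (F_nonneg q a)
    apply Finset.sum_nonneg
    intro n hn
    have hn0 : n ≠ 0 := by
      rintro rfl
      simp at hn
    have := CR_nonneg hC q a b n hq hn0
    positivity
  have hSp : S + T ≤ F q a + ∑ n ∈ (PP p).divisors, CR q a p n / n := by
    have h1 : ∑ n ∈ (PP b).divisors, CR q a p n / n ≤ ∑ n ∈ (PP p).divisors, CR q a p n / n := by
      apply Finset.sum_le_sum_of_subset_of_nonneg
      · rw [hpdef, PP_succ b hp]
        exact Nat.divisors_subset_of_dvd (mul_ne_zero hm hp.ne_zero) (Dvd.intro _ rfl)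
      · intro n hn _
        have hn0 : n ≠ 0 := by
          rintro rfl
          simp at hn
        have := CR_nonneg hC q a p n hq hn0
        positivity
    have h2 : ∑ n ∈ (PP b).divisors, CR q a p n / n =
        ∑ n ∈ (PP b).divisors, CR q a b n / n + T := by
      rw [hT, ← Finset.sum_add_distrib]
      apply Finset.sum_congr rfl
      intro n hn
      have hpn : ¬ p ∣ n := fun h => hpm (h.trans (Nat.dvd_of_mem_divisors hn))
      have h3 : CR q a p n = CR q a b n + X n ^ (1 / (q : ℝ)) / p := by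
        unfold CR
        rw [hpdef, pr_succ a b hab hp, Finset.filter_insert, if_pos (hpdef ▸ hpn),
          Finset.sum_insert, add_comm]
        intro hmem
        exact not_mem_pr a b (Finset.mem_filter.mp hmem).1
      rw [h3, add_div]
    rw [hS]
    linarith
  have hb0 := F_nonneg q b
  rw [hF]
  calc F q b + ∑ n ∈ (PP b).divisors, (NQ q (n * p) : ℝ) ^ (1 / (q : ℝ)) / (n * p)
      ≤ F q b + ((1 + 1 / (q : ℝ)) / p * F q b + T) := by linarith
    _ = (1 + (1 + 1 / (q : ℝ)) / p) * F q b + T := by ring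
    _ ≤ (1 + 1 / (p : ℝ)) ^ (1 + 1 / (q : ℝ)) * F q b + T := by
        have := mul_le_mul_of_nonneg_right hBern hb0
        linarith
    _ ≤ (1 + 1 / (p : ℝ)) ^ (1 + 1 / (q : ℝ)) * ((V b / V a) ^ (1 + 1 / (q : ℝ)) * S) + T := by
        have h0 : 0 ≤ (1 + 1 / (p : ℝ)) ^ (1 + 1 / (q : ℝ)) := by positivity
        have := mul_le_mul_of_nonneg_left ih h0
        linarith
    _ = (V p / V a) ^ (1 + 1 / (q : ℝ)) * S + T := by rw [hR2]; ring
    _ ≤ (V p / V a) ^ (1 + 1 / (q : ℝ)) * S + (V p / V a) ^ (1 + 1 / (q : ℝ)) * T := by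
        have := mul_le_mul_of_nonneg_right hR1 hT0
        linarith
    _ = (V p / V a) ^ (1 + 1 / (q : ℝ)) * (S + T) := by ring
    _ ≤ (V p / V a) ^ (1 + 1 / (q : ℝ)) *
        (F q a + ∑ n ∈ (PP p).divisors, CR q a p n / n) := by
        apply mul_le_mul_of_nonneg_left hSp
        linarith

theorem gron : GCross → GGron := by
  intro hC q a b hq _ hab
  have key : V a ≤ V b ∧ F q b ≤ (V b / V a) ^ (1 + 1 / (q : ℝ)) *
      (F q a + ∑ n ∈ (PP b).divisors, CR q a b n / n) := by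
    induction b, hab using Nat.le_induction with
    | base =>
      refine ⟨le_rfl, ?_⟩
      rw [div_self (V_pos a).ne', Real.one_rpow, one_mul]
      have : ∑ n ∈ (PP a).divisors, CR q a a n / (n : ℝ) = 0 := by
        apply Finset.sum_eq_zero
        intro n _
        have : CR q a a n = 0 := by
          unfold CR pr
          simp
        rw [this, zero_div]
      linarith
    | succ b hab ih =>
      by_cases hp : (b + 1).Prime
      · refine ⟨?_, step hC q a b hq hab hp ih.1 ih.2⟩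
        rw [V_succ b hp]
        have : V b * 1 ≤ V b * (1 + 1 / (((b + 1 : ℕ) : ℝ))) := by
          apply mul_le_mul_of_nonneg_left _ (V_pos b).le
          have : (0 : ℝ) ≤ 1 / (((b + 1 : ℕ) : ℝ)) := by positivity
          linarith
        linarith [ih.1]
      · have e1 : V (b + 1) = V b := by unfold V; rw [pr_succ_not 0 b hp]
        have e2 : PP (b + 1) = PP b := by unfold PP; rw [pr_succ_not 0 b hp]
        have e3 : F q (b + 1) = F q b := by unfold F; rw [e2]
        have e4 : ∀ n, CR q a (b + 1) n = CR q a b n := by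
          intro n; unfold CR; rw [pr_succ_not a b hp]
        rw [e1, e2, e3]
        simp only [e4]
        exact ih
  exact key.2

end Pool.Agent.Helper26.Lang
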